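import Pool.Agent.Results.MP_4a2bad_gt.HemisphereTimesSphere

/-!
# The exact radius of the half product of spheres

Stronger form of `HemisphereTimesSphere` (MP_4a2bad_gt, Q1).  The compact noncollapsed RCD(3,4)
space with boundary of the starting file, the product of a closed hemisphere and a sphere of
curvature three, has radius exactly `(π/2) √(5/3)`, so the bound `π/2` of the Grove-Petersen theorem
fails by a factor `√(5/3) = 1.29...`; its diameter is `π √(2/3)`.
-/

set_option autoImplicit false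

open MeasureTheory Pool.Agent.W553.RCD

namespace Pool.Agent.Results.MP_4a2bad_gt.ExactRadius

/-- A unit vector. -/
noncomputable def ev (i : Fin 3) : E3 := EuclideanSpace.single i 1

theorem norm_ev (i : Fin 3) : ‖ev i‖ = 1 := by simp [ev]

theorem inner_ev (i : Fin 3) (x : E3) : inner ℝ (ev i) x = x i := by
  rw [ev, EuclideanSpace.inner_single_left]
  simp

theorem half_pi_le {x y : E3} (hx : ‖x‖ = 1) (hy : ‖y‖ = 1) (h : inner ℝ x y ≤ 0) :
    Real.pi / 2 ≤ ang x y := by
  by_contra hcon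
  push Not at hcon
  have h1 : 0 < Real.cos (ang x y) :=
    Real.cos_pos_of_mem_Ioo ⟨by have := ang_nonneg x y; have := Real.pi_pos; linarith, hcon⟩
  rw [cos_ang hx hy] at h1
  linarith

theorem le_half_pi {x y : E3} (hx : ‖x‖ = 1) (hy : ‖y‖ = 1) (h : 0 ≤ inner ℝ x y) :
    ang x y ≤ Real.pi / 2 := by
  by_contra hcon
  push Not at hcon
  have h1 : Real.cos (ang x y) < 0 :=
    Real.cos_neg_of_pi_div_two_lt_of_lt hcon (by
      have := ang_le_pi x y; have := Real.pi_pos; linarith)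
  rw [cos_ang hx hy] at h1
  linarith

theorem value_eq : √((Real.pi / 2) ^ 2 + Real.pi ^ 2) / √3 = Real.pi / 2 * √(5 / 3) := by
  have hpi := Real.pi_pos
  rw [← Real.sqrt_div (by positivity)]
  have h1 : Real.pi / 2 = √((Real.pi / 2) ^ 2) := (Real.sqrt_sq (by positivity)).symm
  have h2 : Real.pi / 2 * √(5 / 3) = √((Real.pi / 2) ^ 2) * √(5 / 3) := by rw [← h1]
  rw [h2, ← Real.sqrt_mul (by positivity)]
  congr 1
  ring

theorem diam_value : √(Real.pi ^ 2 + Real.pi ^ 2) / √3 = Real.pi * √(2 / 3) := by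
  have hpi := Real.pi_pos
  rw [← Real.sqrt_div (by positivity)]
  have h1 : Real.pi = √(Real.pi ^ 2) := (Real.sqrt_sq hpi.le).symm
  have h2 : Real.pi * √(2 / 3) = √(Real.pi ^ 2) * √(2 / 3) := by rw [← h1]
  rw [h2, ← Real.sqrt_mul (by positivity)]
  congr 1
  ring

theorem ang_neg_self {x : E3} (hx : ‖x‖ = 1) : ang x (-x) = Real.pi := by
  refine InnerProductGeometry.angle_self_neg_of_nonzero ?_
  intro h
  rw [h] at hx
  simp at hx

/-- Every point has a point at distance at least `(π/2) √(5/3)`. -/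
theorem exists_far (p : XX) : ∃ x : XX, Real.pi / 2 * √(5 / 3) ≤ dist p x := by
  obtain ⟨e, he, he2, hin⟩ : ∃ e : E3, ‖e‖ = 1 ∧ e 2 = 0 ∧ inner ℝ p.1.a e ≤ 0 := by
    rcases le_total (inner ℝ p.1.a (ev 0)) 0 with h | h
    · exact ⟨ev 0, norm_ev 0, by simp [ev], h⟩
    · refine ⟨-ev 0, by rw [norm_neg, norm_ev], by simp [ev], ?_⟩
      rw [inner_neg_right]
      linarith
  refine ⟨⟨⟨e, -p.1.b, he, by rw [norm_neg]; exact p.1.hb⟩, he2.ge⟩, ?_⟩
  rw [Subtype.dist_eq, M.dist_def]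
  have e1 : ang p.1.b (-p.1.b) = Real.pi := ang_neg_self p.1.hb
  show _ ≤ √((ang p.1.a e) ^ 2 + (ang p.1.b (-p.1.b)) ^ 2) / √3
  rw [e1, ← value_eq]
  have h1 := half_pi_le p.1.ha he hin
  have hpi := Real.pi_pos
  refine div_le_div_of_nonneg_right (Real.sqrt_le_sqrt ?_) (Real.sqrt_nonneg _)
  have h2 : (Real.pi / 2) ^ 2 ≤ (ang p.1.a e) ^ 2 := pow_le_pow_left₀ (by positivity) h1 2
  linarith

/-- The pole. -/
noncomputable def pole : XX := ⟨⟨ev 2, ev 2, norm_ev 2, norm_ev 2⟩, by simp [ev]⟩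

theorem dist_pole_le (x : XX) : dist pole x ≤ Real.pi / 2 * √(5 / 3) := by
  rw [Subtype.dist_eq, M.dist_def, ← value_eq]
  have h1 : ang (ev 2) x.1.a ≤ Real.pi / 2 :=
    le_half_pi (norm_ev 2) x.1.ha (by rw [inner_ev]; exact x.2)
  have h2 : ang (ev 2) x.1.b ≤ Real.pi := ang_le_pi _ _
  have h3 := ang_nonneg (ev 2) x.1.a
  have h4 := ang_nonneg (ev 2) x.1.b
  show √((ang (ev 2) x.1.a) ^ 2 + (ang (ev 2) x.1.b) ^ 2) / √3 ≤ _
  refine div_le_div_of_nonneg_right (Real.sqrt_le_sqrt ?_) (Real.sqrt_nonneg _)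
  gcongr

theorem radius_eq : radius XX = ENNReal.ofReal (Real.pi / 2 * √(5 / 3)) := by
  unfold radius
  apply le_antisymm
  · refine (iInf_le _ pole).trans (iSup_le fun x => ?_)
    rw [edist_dist]
    exact ENNReal.ofReal_le_ofReal (dist_pole_le x)
  · refine le_iInf fun p => ?_
    obtain ⟨x, hx⟩ := exists_far p
    refine le_trans ?_ (le_iSup (fun x : XX => edist p x) x)
    rw [edist_dist]
    exact ENNReal.ofReal_le_ofReal hx

theorem dist_le' (x y : XX) : dist x y ≤ Real.pi * √(2 / 3) := by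
  rw [Subtype.dist_eq, M.dist_def, ← diam_value]
  have h1 := ang_le_pi x.1.a y.1.a
  have h2 := ang_le_pi x.1.b y.1.b
  have h3 := ang_nonneg x.1.a y.1.a
  have h4 := ang_nonneg x.1.b y.1.b
  refine div_le_div_of_nonneg_right (Real.sqrt_le_sqrt ?_) (Real.sqrt_nonneg _)
  gcongr

theorem diam_eq : Metric.diam (Set.univ : Set XX) = Real.pi * √(2 / 3) := by
  apply le_antisymm
  · exact Metric.diam_le_of_forall_dist_le (by positivity) fun x _ y _ => dist_le' x y
  · let x : XX := ⟨⟨ev 0, ev 0, norm_ev 0, norm_ev 0⟩, by simp [ev]⟩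
    let y : XX := ⟨⟨-ev 0, -ev 0, by rw [norm_neg, norm_ev], by rw [norm_neg, norm_ev]⟩,
      by simp [ev]⟩
    have hxy : dist x y = Real.pi * √(2 / 3) := by
      rw [Subtype.dist_eq, M.dist_def, ← diam_value]
      show √((ang (ev 0) (-ev 0)) ^ 2 + (ang (ev 0) (-ev 0)) ^ 2) / √3 = _
      rw [ang_neg_self (norm_ev 0)]
    rw [← hxy]
    refine Metric.dist_le_diam_of_mem ?_ (Set.mem_univ _) (Set.mem_univ _)
    exact Metric.isBounded_iff.2 ⟨_, fun x _ y _ => dist_le' x y⟩

/-- **Main theorem.** There is a compact noncollapsed RCD(3,4) space with nonempty boundary, of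
diameter `π √(2/3)`, whose radius is exactly `(π/2) √(5/3)`; in particular the radius is larger than
`(5/4) (π/2)`. -/
theorem result :
    ∃ (X : Type) (_ : MetricSpace X) (_ : MeasurableSpace X) (_ : BorelSpace X),
      CompactSpace X ∧ IsNoncollapsedRCD X 3 4 ∧ (Boundary X 4).Nonempty ∧
        radius X = ENNReal.ofReal (Real.pi / 2 * √(5 / 3)) ∧
        ENNReal.ofReal (5 / 4 * (Real.pi / 2)) < radius X ∧
        Metric.diam (Set.univ : Set X) = Real.pi * √(2 / 3) := by
  refine ⟨XX, inferInstance, inferInstance, inferInstance, inferInstance, XX_isRCD,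
    Pool.Agent.W342.RCD.S_K4_holds, radius_eq, ?_, diam_eq⟩
  rw [radius_eq]
  have hpi := Real.pi_pos
  have h : (5 / 4 : ℝ) < √(5 / 3) := Real.lt_sqrt_of_sq_lt (by norm_num)
  refine (ENNReal.ofReal_lt_ofReal_iff (by positivity)).2 ?_
  nlinarith

end Pool.Agent.Results.MP_4a2bad_gt.ExactRadius
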